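import Pool.Agent.Helper467_GG.Main

/-!
# Chains of conditions of length `ω₁` and the resulting group
-/

namespace Pool.Helper467GG

open Set Filter Topology Cardinal

variable {Z : Type} [AddCommGroup Z] [TopologicalSpace Z]

namespace Cond

theorem exists_chain {α : Type} [LinearOrder α] [WellFoundedLT α]
    (hcount : ∀ a : α, (Iio a).Countable) (R : α → Cond Z → Cond Z → Prop)
    (hR : ∀ a p, ∃ q, Le q p ∧ R a p q) (p0 : Cond Z) :
    ∃ f : α → Cond Z, ∀ a, ∃ p, (∀ b < a, Le p (f b)) ∧ Le (f a) p ∧ R a p (f a) := by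
  classical
  let good : ∀ a : α, (∀ b, b < a → Cond Z) → Cond Z → Prop := fun a g q =>
    ∃ p, (∀ b (h : b < a), Le p (g b h)) ∧ Le q p ∧ R a p q
  let F : ∀ a : α, (∀ b, b < a → Cond Z) → Cond Z := fun a g =>
    if h : ∃ q, good a g q then Classical.choose h else p0
  let f : α → Cond Z := (wellFounded_lt (α := α)).fix F
  have hf : ∀ a, f a = F a (fun b _ => f b) := fun a => (wellFounded_lt (α := α)).fix_eq F a
  refine ⟨f, fun a => ?_⟩
  change good a (fun b _ => f b) (f a)
  induction a using (wellFounded_lt (α := α)).induction with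
  | _ a ih =>
    have hlt : ∀ b < a, ∀ c < b, Le (f b) (f c) := by
      intro b hb c hc
      obtain ⟨p, h1, h2, _⟩ := ih b hb
      exact h2.trans (h1 c hc)
    have hle : ∀ b < a, ∀ c ≤ b, Le (f b) (f c) := by
      intro b hb c hc
      rcases hc.eq_or_lt with rfl | hc
      · exact Le.refl _
      · exact hlt b hb c hc
    have hlow : ∃ p, ∀ b < a, Le p (f b) := by
      rcases (Iio a).eq_empty_or_nonempty with he | hne
      · refine ⟨p0, fun b hb => ?_⟩
        have : b ∈ Iio a := hb
        rw [he] at this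
        exact absurd this (notMem_empty b)
      · have := hne.to_subtype
        have := (hcount a).to_subtype
        obtain ⟨s, hs⟩ := exists_surjective_nat (Iio a)
        let t : ℕ → Iio a := fun n => partialSups s n
        have hmono : ∀ n, t n ≤ t (n + 1) := fun n => (partialSups s).monotone (Nat.le_succ n)
        obtain ⟨q, hq⟩ := exists_limit (fun n => f (t n)) fun n =>
          hle _ (t (n + 1)).2 _ (hmono n)
        refine ⟨q, fun b hb => ?_⟩
        obtain ⟨n, hn⟩ := hs ⟨b, hb⟩
        have h1 : s n ≤ t n := le_partialSups s n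
        rw [hn] at h1
        exact (hq n).trans (hle _ (t n).2 b h1)
    obtain ⟨p, hp⟩ := hlow
    obtain ⟨q, hq, hRq⟩ := hR a p
    have hex : ∃ q, good a (fun b _ => f b) q := ⟨q, p, hp, hq, hRq⟩
    rw [hf a]
    simp only [F, dif_pos hex]
    exact Classical.choose_spec hex

theorem exists_group_aux [IsTopologicalAddGroup Z] [MeasurableSpace Z] [BorelSpace Z]
    {α : Type} (hα : #α = aleph 1) (e : α → ℕ → ℕ → Set Z)
    (he : ∀ a n i, MeasurableSet (e a n i)) (p0 : Cond Z) :
    ∃ G : Submodule ℤ Z, aleph 1 ≤ #G ∧ ∀ a,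
      (∀ n, ∀ E : Set Z, E.Finite → E ⊆ G → ∃ i, E ⊆ e a n i) →
        ∃ f : ℕ → ℕ, ∀ g ∈ G, ∀ᶠ n in atTop, g ∈ e a n (f n) := by
  obtain ⟨_, _, hord⟩ := exists_ord_eq_type_lt α
  have hcount : ∀ a : α, (Iio a).Countable := by
    intro a
    rw [← le_aleph0_iff_set_countable, ← lt_aleph_one_iff, ← hα]
    exact mk_Iio_lt a hord
  obtain ⟨f, hf⟩ := exists_chain hcount
    (fun a p q => (∃ z ∈ q.C, z ∉ p.C) ∧ Decides (e a) q) (fun a p => by
      obtain ⟨q, hq, z, hz, hz'⟩ := p.exists_new
      obtain ⟨r, hr, hd⟩ := q.exists_decides (e a) (he a)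
      exact ⟨r, hr.trans hq, ⟨z, hr.hC hz, hz'⟩, hd⟩) p0
  have hlt : ∀ b c, c < b → Le (f b) (f c) := by
    intro b c hc
    obtain ⟨p, h1, h2, _⟩ := hf b
    exact h2.trans (h1 c hc)
  have hle : ∀ b c, c ≤ b → Le (f b) (f c) := by
    intro b c hc
    rcases hc.eq_or_lt with rfl | hc
    · exact Le.refl _
    · exact hlt b c hc
  have hdir : Directed (· ≤ ·) fun a => (f a).C := by
    intro a b
    rcases le_total a b with h | h
    · exact ⟨b, (hle b a h).hC, le_rfl⟩
    · exact ⟨a, le_rfl, (hle a b h).hC⟩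
  have hne : Nonempty α := by
    rw [← mk_ne_zero_iff, hα]
    exact (aleph_pos 1).ne'
  let G : Submodule ℤ Z := ⨆ a, (f a).C
  have hG : (G : Set Z) = ⋃ a, ((f a).C : Set Z) := Submodule.coe_iSup_of_directed _ hdir
  have hGH : ∀ a, G ≤ (f a).H := by
    intro a
    refine iSup_le fun b => ?_
    rcases le_total a b with h | h
    · exact (hle b a h).hH
    · exact (hle a b h).hC.trans (C_le_H _)
  refine ⟨G, ?_, ?_⟩
  · -- uncountable
    have hz : ∀ a, ∃ z ∈ (f a).C, ∀ b < a, z ∉ (f b).C := by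
      intro a
      obtain ⟨p, h1, h2, ⟨z, hz, hz'⟩, _⟩ := hf a
      exact ⟨z, hz, fun b hb hzb => hz' ((h1 b hb).hC hzb)⟩
    choose z hz1 hz2 using hz
    have hzG : ∀ a, z a ∈ G := fun a => le_iSup (fun a => (f a).C) a (hz1 a)
    rw [← hα]
    refine mk_le_of_injective (f := fun a => (⟨z a, hzG a⟩ : G)) ?_
    intro a b hab
    have hab' : z a = z b := congrArg Subtype.val hab
    rcases lt_trichotomy a b with h | h | h
    · exact absurd (hab' ▸ hz1 a) (hz2 b a h)
    · exact h
    · exact absurd (hab'.symm ▸ hz1 b) (hz2 a b h)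
  · intro a hcov
    obtain ⟨_, _, _, _, hd⟩ := hf a
    rcases hd with ⟨n, E, hE, hEC, hno⟩ | ⟨g, hg⟩
    · obtain ⟨i, hi⟩ := hcov n E hE (hEC.trans (le_iSup (fun a => (f a).C) a))
      exact absurd hi (hno i)
    · exact ⟨g, fun h hh => hg h (hGH a hh)⟩

end Cond

/-- Under CH, a second countable topological abelian group into which the Cantor space embeds has
a subgroup of size continuum with the combinatorial form of `S₁(B_Ω, B_Γ)`. -/
theorem exists_group [IsTopologicalAddGroup Z] [SecondCountableTopology Z] [MeasurableSpace Z]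
    [BorelSpace Z] (hCH : (continuum : Cardinal.{0}) = aleph 1) (ι : K → Z) (hι : Continuous ι)
    (hι' : Function.Injective ι) :
    ∃ G : Submodule ℤ Z, continuum ≤ #G ∧ ∀ U : ℕ → ℕ → Set Z, (∀ n i, MeasurableSet (U n i)) →
      (∀ n, ∀ E : Set Z, E.Finite → E ⊆ G → ∃ i, E ⊆ U n i) →
        ∃ f : ℕ → ℕ, ∀ g ∈ G, ∀ᶠ n in atTop, g ∈ U n (f n) := by
  have hB : #{s : Set Z // MeasurableSet s} ≤ continuum := by
    have h1 := MeasurableSpace.cardinal_measurableSet_le_continuum
      (s := TopologicalSpace.countableBasis Z)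
      (le_trans (le_aleph0_iff_set_countable.2 (TopologicalSpace.countable_countableBasis Z))
        aleph0_le_continuum)
    have h2 : ‹MeasurableSpace Z› = MeasurableSpace.generateFrom
        (TopologicalSpace.countableBasis Z) := by
      rw [BorelSpace.measurable_eq (α := Z)]
      exact (TopologicalSpace.isBasis_countableBasis Z).borel_eq_generateFrom
    rw [← h2] at h1
    exact h1
  have hS : #(ℕ → ℕ → {s : Set Z // MeasurableSet s}) ≤ #(ℕ → Bool) := by
    have h1 : #(ℕ → ℕ → {s : Set Z // MeasurableSet s}) =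
        (#{s : Set Z // MeasurableSet s} ^ aleph0) ^ aleph0 := by simp
    have h2 : #(ℕ → Bool) = continuum := by simp
    rw [h1, h2]
    calc (#{s : Set Z // MeasurableSet s} ^ aleph0) ^ aleph0
        ≤ (continuum ^ aleph0) ^ aleph0 :=
          power_le_power_right (power_le_power_right hB)
      _ = continuum := by simp
  obtain ⟨emb⟩ := hS
  have hne : Nonempty (ℕ → ℕ → {s : Set Z // MeasurableSet s}) :=
    ⟨fun _ _ => ⟨∅, MeasurableSet.empty⟩⟩
  let e : K → ℕ → ℕ → {s : Set Z // MeasurableSet s} := Function.invFun emb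
  have hsurj : Function.Surjective e := Function.invFun_surjective emb.injective
  have hK : #K = aleph 1 := by
    rw [← hCH]
    simp
  obtain ⟨G, hG1, hG2⟩ := Cond.exists_group_aux hK (fun a n i => (e a n i).1)
    (fun a n i => (e a n i).2)
    { C := ⊥
      countable := by simp
      P := fun _ => ι
      cont := fun _ => hι
      inj := fun _ => hι' }
  refine ⟨G, by rw [hCH]; exact hG1, fun U hU hcov => ?_⟩
  obtain ⟨a, ha⟩ := hsurj (fun n i => ⟨U n i, hU n i⟩)
  have h1 : ∀ n i, (e a n i).1 = U n i := fun n i => by rw [ha]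
  have := hG2 a
  simp only [h1] at this
  exact this hcov

end Pool.Helper467GG
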