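import Pool.Agent.Helper467_GG.Shrink

/-!
# Conditions: a countable subgroup together with a countable family of perfect sets
-/

namespace Pool.Helper467GG

open Set Filter Topology

/-- infinite composition -/
theorem inf_comp (s : ℕ → K → K) (k0 : ℕ) (hl : ∀ t, Lip (s t)) (hp : ∀ t, Pres (k0 + t) (s t)) :
    ∃ L : ℕ → K → K, (∀ t, Lip (L t)) ∧ (∀ t, Pres (k0 + t) (L t)) ∧
      ∀ t, L t = s t ∘ L (t + 1) := by
  let c : ℕ → ℕ → K → K := fun t m => Nat.rec id (fun m f => f ∘ s (t + m)) m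
  have hc0 : ∀ t, c t 0 = id := fun _ => rfl
  have hcs : ∀ t m, c t (m + 1) = c t m ∘ s (t + m) := fun _ _ => rfl
  have hcl : ∀ t m, Lip (c t m) := by
    intro t m
    induction m with
    | zero => exact lip_id
    | succ m ih => exact ih.comp (hl _)
  have hcp : ∀ t m, Pres (k0 + t) (c t m) := by
    intro t m
    induction m with
    | zero => intro y i _; rfl
    | succ m ih => exact ih.comp ((hp _).mono (by omega))
  have hstab1 : ∀ t m y i, i < m → c t (m + 1) y i = c t m y i := by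
    intro t m y i hi
    rw [hcs]
    refine hcl t m _ _ i fun k hk => hp (t + m) y k (by omega)
  have hstab : ∀ t m m' y i, i < m → m ≤ m' → c t m' y i = c t m y i := by
    intro t m m' y i hi hm
    induction m', hm using Nat.le_induction with
    | base => rfl
    | succ m' hm' ih => rw [hstab1 t m' y i (by omega), ih]
  have hshift : ∀ t m, c t (m + 1) = s t ∘ c (t + 1) m := by
    intro t m
    induction m with
    | zero => rw [hcs, hc0, hc0]; rfl
    | succ m ih =>
      rw [hcs t (m + 1), ih, hcs (t + 1) m, Function.comp_assoc]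
      have : t + (m + 1) = t + 1 + m := by omega
      rw [this]
  refine ⟨fun t y i => c t (i + 1) y i, ?_, ?_, ?_⟩
  · intro t y y' i h
    exact hcl t (i + 1) y y' i h
  · intro t y i hi
    exact hcp t (i + 1) y i hi
  · intro t
    funext y i
    change c t (i + 1) y i = s t (fun i => c (t + 1) (i + 1) y i) i
    have hsh : c t (i + 2) y i = s t (c (t + 1) (i + 1) y) i :=
      congrFun (congrFun (hshift t (i + 1)) y) i
    rw [← hstab t (i + 1) (i + 2) y i (by omega) (by omega), hsh]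
    refine hl t _ _ i fun k hk => ?_
    exact hstab (t + 1) (k + 1) (i + 1) y k (by omega) (by omega)

variable {Z : Type} [AddCommGroup Z] [TopologicalSpace Z]

variable (Z) in
/-- A condition. -/
structure Cond where
  C : Submodule ℤ Z
  countable : (C : Set Z).Countable
  P : ℕ → K → Z
  cont : ∀ j, Continuous (P j)
  inj : ∀ j, Function.Injective (P j)

namespace Cond

def H (p : Cond Z) : Submodule ℤ Z :=
  p.C ⊔ Submodule.span ℤ (range fun z : ℕ × K => p.P z.1 z.2)

structure Le (q p : Cond Z) : Prop where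
  hC : p.C ≤ q.C
  hH : q.C ≤ p.H
  ha : ∀ j, ∃ i, range (q.P j) ⊆ range (p.P i)
  hb : ∀ i n, ∃ j s, Lip s ∧ Pres n s ∧ q.P j = p.P i ∘ s

theorem C_le_H (p : Cond Z) : p.C ≤ p.H := le_sup_left

theorem P_mem_H (p : Cond Z) (j : ℕ) (y : K) : p.P j y ∈ p.H :=
  (le_sup_right : _ ≤ p.H) (Submodule.subset_span ⟨(j, y), rfl⟩)

theorem Le.H_mono {q p : Cond Z} (h : Le q p) : q.H ≤ p.H := by
  refine sup_le h.hH ?_
  rw [Submodule.span_le]
  rintro _ ⟨⟨j, y⟩, rfl⟩
  obtain ⟨i, hi⟩ := h.ha j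
  obtain ⟨y', hy'⟩ := hi ⟨y, rfl⟩
  change q.P j y ∈ p.H
  rw [← hy']
  exact p.P_mem_H i y'

theorem Le.refl (p : Cond Z) : Le p p where
  hC := le_rfl
  hH := p.C_le_H
  ha := fun j => ⟨j, subset_rfl⟩
  hb := fun i _ => ⟨i, id, lip_id, fun _ _ _ => rfl, rfl⟩

theorem Le.trans {r q p : Cond Z} (h : Le r q) (h' : Le q p) : Le r p where
  hC := h'.hC.trans h.hC
  hH := h.hH.trans h'.H_mono
  ha := fun j => by
    obtain ⟨i, hi⟩ := h.ha j
    obtain ⟨i', hi'⟩ := h'.ha i
    exact ⟨i', hi.trans hi'⟩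
  hb := fun i n => by
    obtain ⟨j, s, hs1, hs2, hs⟩ := h'.hb i n
    obtain ⟨j', t, ht1, ht2, ht⟩ := h.hb j n
    exact ⟨j', s ∘ t, hs1.comp ht1, hs2.comp ht2, by rw [ht, hs, Function.comp_assoc]⟩

theorem le_of_chain (p : ℕ → Cond Z) (h : ∀ n, Le (p (n + 1)) (p n)) {m n : ℕ} (hmn : m ≤ n) :
    Le (p n) (p m) := by
  induction n, hmn using Nat.le_induction with
  | base => exact Le.refl _
  | succ n _ ih => exact (h n).trans ih

theorem limit_piece (p : ℕ → Cond Z) (h : ∀ n, Le (p (n + 1)) (p n)) (n0 i0 k0 : ℕ) :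
    ∃ T : K → Z, Continuous T ∧ Function.Injective T ∧
      (∃ s, Lip s ∧ Pres k0 s ∧ T = (p n0).P i0 ∘ s) ∧ ∀ m, ∃ i, range T ⊆ range ((p m).P i) := by
  have hb : ∀ m i k, ∃ j s, Lip s ∧ Pres k s ∧ (p (m + 1)).P j = (p m).P i ∘ s :=
    fun m => (h m).hb
  choose J Sg hlip hpres heq using hb
  let idx : ℕ → ℕ := fun t => Nat.rec i0 (fun t i => J (n0 + t) i (k0 + t)) t
  let s : ℕ → K → K := fun t => Sg (n0 + t) (idx t) (k0 + t)
  have hstep : ∀ t, (p (n0 + (t + 1))).P (idx (t + 1)) = (p (n0 + t)).P (idx t) ∘ s t :=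
    fun t => heq (n0 + t) (idx t) (k0 + t)
  obtain ⟨L, hL1, hL2, hL3⟩ := inf_comp s k0 (fun t => hlip _ _ _) (fun t => hpres _ _ _)
  have hT : ∀ t, (p n0).P i0 ∘ L 0 = (p (n0 + t)).P (idx t) ∘ L t := by
    intro t
    induction t with
    | zero => rfl
    | succ t ih =>
      rw [ih, hL3 t, hstep t, Function.comp_assoc]
  refine ⟨(p n0).P i0 ∘ L 0, ((p n0).cont i0).comp (hL1 0).continuous, ?_,
    ⟨L 0, hL1 0, hL2 0, rfl⟩, ?_⟩
  · intro y y' hyy
    by_contra hne
    obtain ⟨i, hi⟩ := Function.ne_iff.1 hne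
    rw [hT (i + 1)] at hyy
    have h1 := (p (n0 + (i + 1))).inj _ hyy
    apply hi
    rw [← hL2 (i + 1) y i (by omega), ← hL2 (i + 1) y' i (by omega), h1]
  · intro m
    rcases le_total n0 m with hm | hm
    · obtain ⟨t, rfl⟩ := Nat.exists_eq_add_of_le hm
      refine ⟨idx t, ?_⟩
      rw [hT t]
      exact range_comp_subset_range _ _
    · obtain ⟨i, hi⟩ := (le_of_chain p h hm).ha i0
      exact ⟨i, (range_comp_subset_range _ _).trans hi⟩

theorem exists_limit (p : ℕ → Cond Z) (h : ∀ n, Le (p (n + 1)) (p n)) : ∃ q, ∀ n, Le q (p n) := by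
  choose T hT1 hT2 hT3 hT4 using limit_piece p h
  have hdir : Directed (· ≤ ·) fun n => (p n).C :=
    directed_of_isDirected_le fun m n hmn => (le_of_chain p h hmn).hC
  let q : Cond Z :=
    { C := ⨆ n, (p n).C
      countable := by
        rw [Submodule.coe_iSup_of_directed _ hdir]
        exact countable_iUnion fun n => (p n).countable
      P := fun j => T (Nat.unpair j).1 (Nat.unpair (Nat.unpair j).2).1
        (Nat.unpair (Nat.unpair j).2).2
      cont := fun j => hT1 _ _ _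
      inj := fun j => hT2 _ _ _ }
  refine ⟨q, fun n => ⟨le_iSup (fun n => (p n).C) n, ?_, ?_, ?_⟩⟩
  · refine iSup_le fun m => ?_
    rcases le_total m n with hm | hm
    · exact (le_of_chain p h hm).hC.trans (C_le_H _)
    · exact (le_of_chain p h hm).hH
  · intro j
    exact hT4 _ _ _ n
  · intro i k
    obtain ⟨s, hs1, hs2, hs3⟩ := hT3 n i k
    refine ⟨Nat.pair n (Nat.pair i k), s, hs1, hs2, ?_⟩
    simp only [q, Nat.unpair_pair]
    exact hs3

end Cond

end Pool.Helper467GG
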