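import Mathlib

/-!
# A fusion lemma for sequences of 1-Lipschitz self-maps of the Cantor space
-/

namespace Pool.Helper467GG

open Set Filter Topology

/-- The Cantor space. -/
abbrev K := ℕ → Bool

/-- `s y i` depends only on `y 0, …, y i`. -/
def Lip (s : K → K) : Prop := ∀ y y' : K, ∀ i, (∀ k ≤ i, y k = y' k) → s y i = s y' i

/-- `s` does not change the first `n` bits. -/
def Pres (n : ℕ) (s : K → K) : Prop := ∀ y : K, ∀ i < n, s y i = y i

/-- a sequence of 1-Lipschitz maps, the `j`-th of them preserving the first `j` bits. -/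
def Good (s : ℕ → K → K) : Prop := ∀ j, Lip (s j) ∧ Pres j (s j)

def Agree (M : ℕ) (s s' : ℕ → K → K) : Prop := ∀ j, ∀ y : K, ∀ i < M, s j y i = s' j y i

theorem lip_id : Lip id := fun _ _ i h => h i le_rfl

theorem good_id : Good (fun _ => id) := fun _ => ⟨lip_id, fun _ _ _ => rfl⟩

theorem Lip.comp {s t : K → K} (hs : Lip s) (ht : Lip t) : Lip (s ∘ t) := by
  intro y y' i h
  apply hs
  intro k hk
  exact ht y y' k fun l hl => h l (hl.trans hk)

theorem Pres.comp {n : ℕ} {s t : K → K} (hs : Pres n s) (ht : Pres n t) : Pres n (s ∘ t) := by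
  intro y i hi
  rw [Function.comp_apply, hs _ i hi, ht _ i hi]

theorem Pres.mono {m n : ℕ} (h : m ≤ n) {s : K → K} (hs : Pres n s) : Pres m s :=
  fun y i hi => hs y i (hi.trans_le h)

theorem Lip.continuous {s : K → K} (hs : Lip s) : Continuous s := by
  refine continuous_pi fun i => ?_
  -- locally constant
  refine IsLocallyConstant.continuous ?_
  rw [IsLocallyConstant.iff_exists_open]
  intro y
  refine ⟨⋂ k ∈ Finset.range (i + 1), {z : K | z k = y k}, ?_, ?_, ?_⟩
  · refine isOpen_biInter_finset fun k _ => ?_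
    have hc : Continuous fun z : K => z k := continuous_apply k
    exact (isOpen_discrete ({y k} : Set Bool)).preimage hc
  · simp
  · intro z hz
    apply hs
    intro k hk
    simp only [mem_iInter, Finset.mem_range, mem_ofPred_eq] at hz
    exact hz k (by omega)

/-- The fusion lemma. -/
theorem fusion (D : ℕ → Set (ℕ → K → K))
    (hD : ∀ k s M, Good s → ∃ s', Good s' ∧ Agree M s s' ∧ ∃ M', M ≤ M' ∧
      ∀ s'', Good s'' → Agree M' s' s'' → s'' ∈ D k) :
    ∃ s, Good s ∧ ∀ k, s ∈ D k := by
  have step : ∀ (k : ℕ) (p : {s : ℕ → K → K // Good s} × ℕ),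
      ∃ q : {s : ℕ → K → K // Good s} × ℕ, Agree p.2 p.1.1 q.1.1 ∧ p.2 < q.2 ∧
        ∀ s'', Good s'' → Agree q.2 q.1.1 s'' → s'' ∈ D k := by
    rintro k ⟨⟨s, hs⟩, M⟩
    obtain ⟨s', hs', ha, M', hM, h⟩ := hD k s M hs
    refine ⟨(⟨s', hs'⟩, M' + 1), ha, by simp; omega, ?_⟩
    intro s'' hs'' ha''
    exact h s'' hs'' fun j y i hi => ha'' j y i (by simp; omega)
  choose next hn1 hn2 hn3 using step
  let st : ℕ → {s : ℕ → K → K // Good s} × ℕ :=
    fun n => Nat.rec (⟨fun _ => id, good_id⟩, 0) (fun k p => next k p) n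
  have hst : ∀ k, st (k + 1) = next k (st k) := fun k => rfl
  have hmono : ∀ k, (st k).2 < (st (k + 1)).2 := fun k => by
    rw [hst]; exact hn2 k _
  have hsm : StrictMono fun k => (st k).2 := strictMono_nat_of_lt_succ hmono
  have hge : ∀ k, k ≤ (st k).2 := fun k => hsm.id_le k
  have hag : ∀ k m, k ≤ m → Agree (st k).2 (st k).1.1 (st m).1.1 := by
    intro k m hkm
    induction m, hkm using Nat.le_induction with
    | base => intro j y i _; rfl
    | succ m hm ih =>
      intro j y i hi
      rw [ih j y i hi, hst m]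
      exact hn1 m _ j y i (hi.trans_le (hsm.monotone hm))
  let s : ℕ → K → K := fun j y i => (st (i + 1)).1.1 j y i
  have hlim : ∀ k, Agree (st k).2 (st k).1.1 s := by
    intro k j y i hi
    change _ = (st (i + 1)).1.1 j y i
    rcases le_total k (i + 1) with h | h
    · exact hag k (i + 1) h j y i hi
    · exact (hag (i + 1) k h j y i (by have := hge (i + 1); omega)).symm
  have hgood : Good s := by
    intro j
    constructor
    · intro y y' i h
      exact ((st (i + 1)).1.2 j).1 y y' i h
    · intro y i hi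
      exact ((st (i + 1)).1.2 j).2 y i hi
  refine ⟨s, hgood, fun k => ?_⟩
  refine hn3 k (st k) s hgood ?_
  rw [← hst k]
  exact hlim (k + 1)

section Top

variable {I J : Type*}

theorem open_agree {D : Set (I → K)} (hD : IsOpen D) {x : I → K} (hx : x ∈ D) :
    ∃ M, ∀ x' : I → K, (∀ l, ∀ i < M, x' l i = x l i) → x' ∈ D := by
  by_contra hcon
  push Not at hcon
  choose x' hx' hnot using hcon
  have ht : Tendsto x' atTop (𝓝 x) := by
    refine tendsto_pi_nhds.2 fun l => tendsto_pi_nhds.2 fun i => ?_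
    refine tendsto_const_nhds.congr' ?_
    filter_upwards [eventually_gt_atTop i] with M hM
    exact (hx' M l i hM).symm
  obtain ⟨M, hM⟩ := (ht.eventually (hD.mem_nhds hx)).exists
  exact hnot M hM

theorem dense_agree [Finite I] {D : Set (I → K)} (hD : Dense D) (x : I → K) (M : ℕ) :
    ∃ z ∈ D, ∀ l, ∀ i < M, z l i = x l i := by
  have hopen : IsOpen (⋂ l : I, ⋂ i ∈ Finset.range M, {z : I → K | z l i = x l i}) := by
    refine isOpen_iInter_of_finite fun l => isOpen_biInter_finset fun i _ => ?_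
    have hc : Continuous fun z : I → K => z l i :=
      (continuous_apply (A := fun _ : ℕ => Bool) i).comp (continuous_apply l)
    exact (isOpen_discrete ({x l i} : Set Bool)).preimage hc
  obtain ⟨z, hz1, hz2⟩ := hD.inter_open_nonempty _ hopen ⟨x, by simp⟩
  refine ⟨z, hz2, fun l i hi => ?_⟩
  simp only [mem_iInter, Finset.mem_range, mem_ofPred_eq] at hz1
  exact hz1 l i hi

theorem dense_of_agree {D : Set (I → K)}
    (h : ∀ (x : I → K) (M : ℕ), ∃ z ∈ D, ∀ l, ∀ i < M, z l i = x l i) : Dense D := by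
  rw [dense_iff_inter_open]
  rintro U hU ⟨x, hx⟩
  obtain ⟨M, hM⟩ := open_agree hU hx
  obtain ⟨z, hz, hz'⟩ := h x M
  exact ⟨z, hM z hz', hz⟩

theorem dense_comp_preimage [Finite I] {D : Set (I → K)} (hD : Dense D) {e : I → J}
    (he : Function.Injective e) : Dense {x : J → K | x ∘ e ∈ D} := by
  apply dense_of_agree
  intro x M
  obtain ⟨z, hz, hzx⟩ := dense_agree hD (x ∘ e) M
  refine ⟨Function.extend e z x, ?_, ?_⟩
  · change Function.extend e z x ∘ e ∈ D
    rwa [Function.extend_comp he]
  · intro l i hi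
    by_cases hl : ∃ l', e l' = l
    · obtain ⟨l', rfl⟩ := hl
      rw [he.extend_apply]
      exact hzx l' i hi
    · rw [Function.extend_apply' _ _ _ hl]

end Top

end Pool.Helper467GG
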