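import Pool.Agent.Helper467_GG.Cond

/-!
# Shrinking a condition to take care of a sequence of Borel ω-covers
-/

namespace Pool.Helper467GG

open Set Filter Topology

variable {Z : Type} [AddCommGroup Z] [TopologicalSpace Z]

namespace Cond

/-- The terms of level `(n, M)` evaluated at `x`. -/
def terms (p : Cond Z) (c : ℕ → Z) (n M : ℕ) (x : XX n M) : Set Z :=
  {z | ∃ k ≤ n, ∃ a : Idx n M → ℤ, (∀ l, |a l| ≤ n) ∧
    z = c k + ∑ l, a l • p.P (Nat.unpair l.1).1 (x l)}

theorem terms_finite (p : Cond Z) (c : ℕ → Z) (n M : ℕ) (x : XX n M) :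
    (p.terms c n M x).Finite := by
  have h1 : {a : Idx n M → ℤ | ∀ l, |a l| ≤ (n : ℤ)}.Finite := by
    refine (Set.finite_Icc (fun _ : Idx n M => -(n : ℤ)) (fun _ => (n : ℤ))).subset ?_
    intro a ha
    rw [mem_Icc]
    exact ⟨fun l => (abs_le.1 (ha l)).1, fun l => (abs_le.1 (ha l)).2⟩
  have h2 : (({k : ℕ | k ≤ n}) ×ˢ {a : Idx n M → ℤ | ∀ l, |a l| ≤ (n : ℤ)}).Finite :=
    (Set.finite_le_nat n).prod h1
  refine (h2.image fun q : ℕ × (Idx n M → ℤ) =>
    c q.1 + ∑ l, q.2 l • p.P (Nat.unpair l.1).1 (x l)).subset ?_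
  rintro z ⟨k, hk, a, ha, rfl⟩
  exact ⟨(k, a), ⟨hk, ha⟩, rfl⟩

theorem terms_subset_H (p : Cond Z) (c : ℕ → Z) (hc : ∀ k, c k ∈ p.C) (n M : ℕ) (x : XX n M) :
    p.terms c n M x ⊆ p.H := by
  rintro z ⟨k, _, a, _, rfl⟩
  refine add_mem (p.C_le_H (hc k)) (sum_mem fun l _ => ?_)
  exact Submodule.smul_mem _ _ (p.P_mem_H _ _)

theorem measurable_W [IsTopologicalAddGroup Z] [MeasurableSpace Z] [BorelSpace Z]
    (p : Cond Z) (c : ℕ → Z) (n M : ℕ) {U : Set Z} (hU : MeasurableSet U) :
    MeasurableSet {x : XX n M | p.terms c n M x ⊆ U} := by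
  have : {x : XX n M | p.terms c n M x ⊆ U} =
      ⋂ k : ℕ, ⋂ a : Idx n M → ℤ, ⋂ (_ : k ≤ n), ⋂ (_ : ∀ l, |a l| ≤ (n : ℤ)),
        (fun x : XX n M => c k + ∑ l, a l • p.P (Nat.unpair l.1).1 (x l)) ⁻¹' U := by
    ext x
    simp only [mem_iInter, mem_preimage]
    constructor
    · intro h k a hk ha
      exact h ⟨k, hk, a, ha, rfl⟩
    · rintro h z ⟨k, hk, a, ha, rfl⟩
      exact h k a hk ha
  rw [this]
  refine MeasurableSet.iInter fun k => MeasurableSet.iInter fun a => MeasurableSet.iInter fun _ =>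
    MeasurableSet.iInter fun _ => ?_
  have hcont : Continuous fun x : XX n M => c k + ∑ l, a l • p.P (Nat.unpair l.1).1 (x l) := by
    refine continuous_const.add (continuous_finsetSum _ fun l _ => ?_)
    exact ((p.cont _).comp (continuous_apply l)).zsmul (a l)
  exact hcont.measurable hU

/-- `q` is obtained from `p` by shrinking the perfect sets, in such a way that we can choose
members of the covers so that each element of `H q` belongs to almost all of them. -/
theorem exists_shrink [IsTopologicalAddGroup Z] [MeasurableSpace Z] [BorelSpace Z]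
    (p : Cond Z) (U : ℕ → ℕ → Set Z) (hU : ∀ n i, MeasurableSet (U n i))
    (hcov : ∀ n, ∀ E : Set Z, E.Finite → E ⊆ p.H → ∃ i, E ⊆ U n i) :
    ∃ q, Le q p ∧ ∃ f : ℕ → ℕ, ∀ h ∈ q.H, ∀ᶠ n in atTop, h ∈ U n (f n) := by
  classical
  obtain ⟨c, hc⟩ := p.countable.exists_eq_range ⟨0, p.C.zero_mem⟩
  have hcC : ∀ k, c k ∈ p.C := fun k => by
    have : c k ∈ (p.C : Set Z) := by rw [hc]; exact ⟨k, rfl⟩
    exact this
  obtain ⟨s, hs, hinj, hbox⟩ := afl (fun n M i => {x : XX n M | p.terms c n M x ⊆ U n i})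
    (fun n M i => p.measurable_W c n M (hU n i))
    (fun n M x => hcov n _ (p.terms_finite c n M x) (p.terms_subset_H c hcC n M x))
  choose M hM f hf using hbox
  let q : Cond Z :=
    { C := p.C
      countable := p.countable
      P := fun j => p.P (Nat.unpair j).1 ∘ s j
      cont := fun j => (p.cont _).comp (hs j).1.continuous
      inj := fun j => (p.inj _).comp (hinj j) }
  refine ⟨q, ⟨le_rfl, p.C_le_H, ?_, ?_⟩, f, ?_⟩
  · intro j
    exact ⟨(Nat.unpair j).1, range_comp_subset_range (s j) (p.P (Nat.unpair j).1)⟩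
  · intro i n
    refine ⟨Nat.pair i n, s (Nat.pair i n), (hs _).1, (hs _).2.mono (Nat.right_le_pair i n), ?_⟩
    simp only [q, Nat.unpair_pair]
  · intro h hh
    obtain ⟨c', hc', r, hr, rfl⟩ := Submodule.mem_sup.1 hh
    obtain ⟨g, rfl⟩ := Finsupp.mem_span_range_iff_exists_finsupp.1 hr
    obtain ⟨k, rfl⟩ : ∃ k, c k = c' := by
      have : c' ∈ (p.C : Set Z) := hc'
      rw [hc] at this
      exact this
    have e1 : ∀ᶠ n in atTop, ∀ z ∈ g.support, z.1 ≤ n :=
      (eventually_all_finset _).2 fun z _ => eventually_ge_atTop z.1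
    have e2 : ∀ᶠ n : ℕ in atTop, ∀ z ∈ g.support, |g z| ≤ (n : ℤ) :=
      (eventually_all_finset _).2 fun z _ => by
        filter_upwards [eventually_ge_atTop (g z).natAbs] with n hn
        rw [Int.abs_eq_natAbs]
        exact_mod_cast hn
    have e3 : ∀ᶠ n : ℕ in atTop, ∀ z ∈ g.support, ∀ z' ∈ g.support,
        z.2 ≠ z'.2 → ∃ i < n, z.2 i ≠ z'.2 i :=
      (eventually_all_finset _).2 fun z _ => (eventually_all_finset _).2 fun z' _ => by
        by_cases hne : z.2 = z'.2
        · exact Eventually.of_forall fun n h => absurd hne h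
        · obtain ⟨i, hi⟩ := Function.ne_iff.1 hne
          filter_upwards [eventually_gt_atTop i] with n hn _
          exact ⟨i, hn, hi⟩
    filter_upwards [e1, e2, e3, eventually_ge_atTop k] with n h1 h2 h3 h4
    -- the node of a point
    let e : ℕ × K → Idx n (M n) := fun z => (⟨min z.1 n, by omega⟩, restr (M n) z.2)
    have he : Set.InjOn e g.support := by
      intro z hz z' hz' hzz
      have hz1 := h1 z hz
      have hz1' := h1 z' hz'
      simp only [e, Prod.mk.injEq, Fin.mk.injEq] at hzz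
      obtain ⟨ha, hb⟩ := hzz
      have h11 : z.1 = z'.1 := by omega
      have h22 : z.2 = z'.2 := by
        by_contra hne
        obtain ⟨i, hi, hi'⟩ := h3 z hz z' hz' hne
        have hiM : i < M n := lt_of_lt_of_le hi (hM n)
        exact hi' (congrFun hb ⟨i, hiM⟩)
      exact Prod.ext h11 h22
    let y : XX n (M n) := fun l =>
      if h : ∃ z ∈ g.support, e z = l then (Classical.choose h).2 else ext l.2
    let a : Idx n (M n) → ℤ := fun l =>
      if h : ∃ z ∈ g.support, e z = l then g (Classical.choose h) else 0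
    have hch : ∀ z ∈ g.support, ∀ h : (∃ z' ∈ g.support, e z' = e z), Classical.choose h = z := by
      intro z hz h
      obtain ⟨h5, h6⟩ := Classical.choose_spec h
      exact he h5 hz h6
    have hy : InBox y := by
      intro l
      by_cases h : ∃ z ∈ g.support, e z = l
      · simp only [y, dif_pos h]
        have h6 := (Classical.choose_spec h).2
        exact congrArg Prod.snd h6
      · simp only [y, dif_neg h]
        funext i
        simp [restr, ext, i.2]
    refine hf n y hy ?_
    refine ⟨k, h4, a, ?_, ?_⟩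
    · intro l
      by_cases h : ∃ z ∈ g.support, e z = l
      · simp only [a, dif_pos h]
        exact h2 _ (Classical.choose_spec h).1
      · simp only [a, dif_neg h, abs_zero]
        exact Int.natCast_nonneg n
    · congr 1
      rw [Finsupp.sum]
      refine Finset.sum_of_injOn e he (fun _ _ => Finset.mem_coe.2 (Finset.mem_univ _)) ?_ ?_
      · intro l _ hl
        have h : ¬ ∃ z ∈ g.support, e z = l := by
          rintro ⟨z, hz, rfl⟩
          exact hl ⟨z, hz, rfl⟩
        simp only [a, dif_neg h, zero_smul]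
      · intro z hz
        have hz1 := h1 z hz
        have hex : ∃ z' ∈ g.support, e z' = e z := ⟨z, hz, rfl⟩
        have hc1 := hch z hz hex
        have ha : a (e z) = g z := by
          simp only [a, dif_pos hex]
          rw [hc1]
        have hyz : y (e z) = z.2 := by
          simp only [y, dif_pos hex]
          rw [hc1]
        have he1 : ((e z).1 : ℕ) = z.1 := by
          change min z.1 n = z.1
          omega
        rw [ha]
        change g z • p.P (Nat.unpair z.1).1 (s z.1 z.2) =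
          g z • p.P (Nat.unpair ((e z).1 : ℕ)).1 (s ((e z).1 : ℕ) (y (e z)))
        rw [hyz, he1]

/-- the condition `q` decides the sequence `U` of countable families. -/
def Decides (U : ℕ → ℕ → Set Z) (q : Cond Z) : Prop :=
  (∃ n, ∃ E : Set Z, E.Finite ∧ E ⊆ q.C ∧ ∀ i, ¬ E ⊆ U n i) ∨
    ∃ f : ℕ → ℕ, ∀ h ∈ q.H, ∀ᶠ n in atTop, h ∈ U n (f n)

theorem exists_adjoin (p : Cond Z) (E : Set Z) (hE : E.Finite) (hEH : E ⊆ p.H) :
    ∃ q, Le q p ∧ E ⊆ q.C := by
  let q : Cond Z :=
    { C := p.C ⊔ Submodule.span ℤ E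
      countable := by
        have h1 : (Submodule.span ℤ E : Set Z).Countable := by
          have : Module.Finite ℤ (Submodule.span ℤ E) :=
            Module.Finite.iff_fg.2 (Submodule.fg_span hE)
          obtain ⟨m, f, hf⟩ := Module.Finite.exists_fin' ℤ (Submodule.span ℤ E)
          have : Countable (Submodule.span ℤ E) := hf.countable
          exact Set.to_countable _
        have h2 := p.countable.image2 h1 (fun a b => a + b)
        refine h2.mono ?_
        intro z hz
        obtain ⟨a, ha, b, hb, rfl⟩ := Submodule.mem_sup.1 hz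
        exact ⟨a, ha, b, hb, rfl⟩
      P := p.P
      cont := p.cont
      inj := p.inj }
  refine ⟨q, ⟨le_sup_left, sup_le p.C_le_H ?_, fun j => ⟨j, subset_rfl⟩, fun i _ =>
    ⟨i, id, lip_id, fun _ _ _ => rfl, rfl⟩⟩, ?_⟩
  · rw [Submodule.span_le]
    exact hEH
  · exact subset_trans Submodule.subset_span (le_sup_right : _ ≤ q.C)

theorem exists_decides [IsTopologicalAddGroup Z] [MeasurableSpace Z] [BorelSpace Z]
    (p : Cond Z) (U : ℕ → ℕ → Set Z) (hU : ∀ n i, MeasurableSet (U n i)) :
    ∃ q, Le q p ∧ Decides U q := by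
  by_cases h : ∃ n, ∃ E : Set Z, E.Finite ∧ E ⊆ p.H ∧ ∀ i, ¬ E ⊆ U n i
  · obtain ⟨n, E, hE, hEH, hi⟩ := h
    obtain ⟨q, hq, hEq⟩ := p.exists_adjoin E hE hEH
    exact ⟨q, hq, Or.inl ⟨n, E, hE, hEq, hi⟩⟩
  · push Not at h
    obtain ⟨q, hq, f, hf⟩ := p.exists_shrink U hU h
    exact ⟨q, hq, Or.inr ⟨f, hf⟩⟩

theorem uncountable_K : Uncountable K := by
  rw [← Cardinal.aleph0_lt_mk_iff]
  have : Cardinal.mk K = 2 ^ Cardinal.aleph0 := by simp
  rw [this]
  exact Cardinal.cantor _

theorem exists_new (p : Cond Z) : ∃ q, Le q p ∧ ∃ z ∈ q.C, z ∉ p.C := by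
  have hne : ∃ z ∈ range (p.P 0), z ∉ p.C := by
    by_contra hcon
    push Not at hcon
    have h1 : (range (p.P 0)).Countable := p.countable.mono hcon
    have h2 : Countable K := by
      have := h1.to_subtype
      exact (Function.Injective.codRestrict (s := range (p.P 0)) (fun y => ⟨y, rfl⟩) (p.inj 0)).countable
    have := uncountable_K
    exact not_countable (α := K) h2
  obtain ⟨z, ⟨y, rfl⟩, hz⟩ := hne
  obtain ⟨q, hq, hE⟩ := p.exists_adjoin {p.P 0 y} (Set.finite_singleton _)
    (by rintro _ rfl; exact p.P_mem_H 0 y)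
  exact ⟨q, hq, p.P 0 y, hE rfl, hz⟩

end Cond

end Pool.Helper467GG
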