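import Pool.Agent.Helper467_GG.Fusion

/-!
# The abstract shrinking lemma
-/

namespace Pool.Helper467GG

open Set Filter Topology

abbrev Idx (n M : ℕ) := Fin (n + 1) × (Fin M → Bool)

abbrev XX (n M : ℕ) := Idx n M → K

def ext {M : ℕ} (u : Fin M → Bool) : K := fun i => if h : i < M then u ⟨i, h⟩ else false

def restr (M : ℕ) (y : K) : Fin M → Bool := fun i => y i

theorem ext_restr {M : ℕ} (y : K) {i : ℕ} (h : i < M) : ext (restr M y) i = y i := by
  simp [ext, restr, h]

/-- `y` lies in the box: the coordinate `(j, u)` of `y` extends `u`. -/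
def InBox {n M : ℕ} (y : XX n M) : Prop := ∀ l, restr M (y l) = l.2

/-- coordinatewise application -/
def app (s : ℕ → K → K) {n M : ℕ} (y : XX n M) : XX n M := fun l => s l.1 (y l)

def shrink (s : ℕ → K → K) (n M : ℕ) (x : XX n M) : ℕ → K → K :=
  fun j y => if h : j < n + 1 then x (⟨j, h⟩, restr M y) else s j y

def base (s : ℕ → K → K) (n M : ℕ) : XX n M := fun l => s l.1 (ext l.2)

theorem shrink_apply (s : ℕ → K → K) {n M : ℕ} (x : XX n M) (j : Fin (n + 1)) (y : K) :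
    shrink s n M x j y = x (j, restr M y) := by
  simp [shrink, j.2]

theorem shrink_key {s : ℕ → K → K} (hs : Good s) {n M : ℕ} {x : XX n M}
    (hx : ∀ l, ∀ i < M, x l i = base s n M l i) (j : ℕ) (y : K) (i : ℕ) (hi : i < M) :
    shrink s n M x j y i = s j y i := by
  unfold shrink
  split_ifs with h
  · rw [hx _ i hi]
    apply (hs j).1
    intro k hk
    exact ext_restr y (by omega)
  · rfl

theorem shrink_agree {s : ℕ → K → K} (hs : Good s) {n M : ℕ} {x : XX n M}
    (hx : ∀ l, ∀ i < M, x l i = base s n M l i) : Agree M s (shrink s n M x) :=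
  fun j y i hi => (shrink_key hs hx j y i hi).symm

theorem shrink_good {s : ℕ → K → K} (hs : Good s) {n M : ℕ} (hnM : n ≤ M) {x : XX n M}
    (hx : ∀ l, ∀ i < M, x l i = base s n M l i) : Good (shrink s n M x) := by
  intro j
  constructor
  · intro y y' i h
    by_cases hi : i < M
    · rw [shrink_key hs hx j y i hi, shrink_key hs hx j y' i hi]
      exact (hs j).1 y y' i h
    · have hr : restr M y = restr M y' := by
        funext k
        exact h k (by omega)
      unfold shrink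
      split_ifs with hj
      · rw [hr]
      · exact (hs j).1 y y' i h
  · intro y i hi
    by_cases hj : j < n + 1
    · rw [shrink_key hs hx j y i (by omega)]
      exact (hs j).2 y i hi
    · unfold shrink
      rw [dif_neg hj]
      exact (hs j).2 y i hi

/-- A requirement: a set of sequences which can be met densely. -/
def Req (D : Set (ℕ → K → K)) : Prop := ∀ s M, Good s → ∃ s', Good s' ∧ Agree M s s' ∧
  ∃ M', M ≤ M' ∧ ∀ s'', Good s'' → Agree M' s' s'' → s'' ∈ D

theorem req1 {n m : ℕ} {D : Set (XX n m)} (hD : IsOpen D) (hd : Dense D) :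
    Req {s | ∀ y : XX n m, InBox y → app s y ∈ D} := by
  intro s M hs
  obtain ⟨M1, hM1, hn1, hm1⟩ : ∃ M1, M ≤ M1 ∧ n ≤ M1 ∧ m ≤ M1 :=
    ⟨max M (max n m), by omega, by omega, by omega⟩
  let e : (Idx n m → (Fin M1 → Bool)) → Idx n m → Idx n M1 := fun v l => (l.1, v l)
  let Val := {v : Idx n m → (Fin M1 → Bool) // ∀ l, ∀ k : Fin m, v l ⟨k, by omega⟩ = l.2 k}
  have hinj : ∀ v : Val, Function.Injective (e v.1) := by
    rintro ⟨v, hv⟩ ⟨j, u⟩ ⟨j', u'⟩ h
    simp only [e, Prod.mk.injEq] at h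
    obtain ⟨rfl, h2⟩ := h
    have : u = u' := by
      funext k
      exact ((hv (j, u) k).symm.trans (congrFun h2 _)).trans (hv (j, u') k)
    rw [this]
  have hopen : ∀ v : Val, IsOpen {x : XX n M1 | x ∘ e v.1 ∈ D} := by
    intro v
    refine hD.preimage ?_
    exact continuous_pi fun l => continuous_apply _
  have hdense : Dense (⋂ v : Val, {x : XX n M1 | x ∘ e v.1 ∈ D}) :=
    dense_iInter_of_isOpen hopen fun v => dense_comp_preimage hd (hinj v)
  obtain ⟨x, hx, hxb⟩ := dense_agree hdense (base s n M1) M1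
  rw [mem_iInter] at hx
  have hex : ∀ v : Val, ∃ M', ∀ x' : XX n m, (∀ l, ∀ i < M', x' l i = (x ∘ e v.1) l i) → x' ∈ D :=
    fun v => open_agree hD (hx v)
  choose f hf using hex
  obtain ⟨M2, hM2⟩ := Finite.exists_le f
  refine ⟨shrink s n M1 x, shrink_good hs hn1 hxb, ?_, max M1 M2, by omega, ?_⟩
  · intro j y i hi
    exact shrink_agree hs hxb j y i (by omega)
  · intro s'' _ ha y hy
    let v : Val := ⟨fun l => restr M1 (y l), fun l k => by
      have := congrFun (hy l) k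
      exact this⟩
    refine hf v _ ?_
    intro l i hi
    change s'' l.1 (y l) i = x (l.1, restr M1 (y l)) i
    rw [← shrink_apply s x l.1 (y l)]
    refine (ha _ _ i ?_).symm
    have := hM2 v
    omega

theorem req2 {n : ℕ} {V : ∀ M : ℕ, ℕ → Set (XX n M)} (hV : ∀ M i, IsOpen (V M i))
    (hd : ∀ M, Dense (⋃ i, V M i)) :
    Req {s | ∃ M, n ≤ M ∧ ∃ i, ∀ y : XX n M, InBox y → app s y ∈ V M i} := by
  intro s M hs
  obtain ⟨M1, hM1, hn1⟩ : ∃ M1, M ≤ M1 ∧ n ≤ M1 := ⟨max M n, by omega, by omega⟩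
  obtain ⟨x, hx, hxb⟩ := dense_agree (hd M1) (base s n M1) M1
  rw [mem_iUnion] at hx
  obtain ⟨i0, hx⟩ := hx
  obtain ⟨M2, hM2⟩ := open_agree (hV M1 i0) hx
  refine ⟨shrink s n M1 x, shrink_good hs hn1 hxb, ?_, max M1 M2, by omega, ?_⟩
  · intro j y i hi
    exact shrink_agree hs hxb j y i (by omega)
  · intro s'' _ ha
    refine ⟨M1, hn1, i0, fun y hy => ?_⟩
    refine hM2 _ ?_
    intro l i hi
    change s'' l.1 (y l) i = x l i
    have h1 : x l = x (l.1, restr M1 (y l)) := by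
      rw [hy l]
    rw [h1, ← shrink_apply s x l.1 (y l)]
    exact (ha _ _ i (by omega)).symm

theorem req3 (j0 : ℕ) :
    Req {s | ∀ j ≤ j0, ∀ y y' : K, (∃ i < j0, y i ≠ y' i) → s j y ≠ s j y'} := by
  intro s M hs
  obtain ⟨M1, hM1, hn1⟩ : ∃ M1, M ≤ M1 ∧ j0 ≤ M1 := ⟨max M j0, by omega, by omega⟩
  let s' : ℕ → K → K := fun j y i => if i < M1 then s j y i else
    if j ≤ j0 then y (i - M1) else s j y i
  refine ⟨s', ?_, ?_, M1 + j0, by omega, ?_⟩
  · intro j
    constructor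
    · intro y y' i h
      have h1 := (hs j).1 y y' i h
      have h2 := h (i - M1) (by omega)
      simp only [s', h1, h2]
    · intro y i hi
      have h1 := (hs j).2 y i hi
      by_cases hiM : i < M1
      · simp only [s', hiM, if_true, h1]
      · have : ¬ j ≤ j0 := by omega
        simp only [s', hiM, this, if_false, h1]
  · intro j y i hi
    have : i < M1 := by omega
    simp only [s', this, if_true]
  · intro s'' _ ha j hj y y' ⟨i, hi, hne⟩ heq
    apply hne
    have h1 := ha j y (M1 + i) (by omega)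
    have h2 := ha j y' (M1 + i) (by omega)
    have hn : ¬ (M1 + i < M1) := by omega
    simp only [s', hn, if_false, hj, if_true, Nat.add_sub_cancel_left] at h1 h2
    rw [h1, h2, heq]

theorem fusion' {Q : Type*} [Countable Q] [Nonempty Q] (D : Q → Set (ℕ → K → K))
    (hD : ∀ q, Req (D q)) : ∃ s, Good s ∧ ∀ q, s ∈ D q := by
  obtain ⟨f, hf⟩ := exists_surjective_nat Q
  obtain ⟨s, hs, h⟩ := fusion (fun k => D (f k)) (fun k s M hs => hD (f k) s M hs)
  refine ⟨s, hs, fun q => ?_⟩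
  obtain ⟨k, rfl⟩ := hf q
  exact h k

/-- The abstract shrinking lemma. -/
theorem afl (W : ∀ n M : ℕ, ℕ → Set (XX n M)) (hW : ∀ n M i, MeasurableSet (W n M i))
    (hc : ∀ n M (x : XX n M), ∃ i, x ∈ W n M i) :
    ∃ s, Good s ∧ (∀ j, Function.Injective (s j)) ∧
      ∀ n, ∃ M, n ≤ M ∧ ∃ i, ∀ y : XX n M, InBox y → app s y ∈ W n M i := by
  have hV : ∀ n M i, ∃ V : Set (XX n M), IsOpen V ∧ W n M i =ᵇ V :=
    fun n M i => (hW n M i).residualEq_isOpen
  choose V hVo hVe using hV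
  have hres : ∀ n M, {x : XX n M | ∀ i, x ∈ W n M i ↔ x ∈ V n M i} ∈ residual (XX n M) := by
    intro n M
    have : ∀ i, ∀ᶠ x in residual (XX n M), (x ∈ W n M i ↔ x ∈ V n M i) := by
      intro i
      have := hVe n M i
      rwa [Filter.eventuallyEq_set] at this
    exact eventually_countable_forall.2 this
  have hS : ∀ n M, ∃ S : Set (Set (XX n M)), (∀ t ∈ S, IsOpen t) ∧ (∀ t ∈ S, Dense t) ∧
      S.Countable ∧ ⋂₀ S ⊆ {x : XX n M | ∀ i, x ∈ W n M i ↔ x ∈ V n M i} :=
    fun n M => mem_residual_iff.1 (hres n M)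
  choose S hSo hSd hSc hSs using hS
  have hdU : ∀ n M, Dense (⋃ i, V n M i) := by
    intro n M
    refine (dense_of_mem_residual (hres n M)).mono ?_
    intro x hx
    obtain ⟨i, hi⟩ := hc n M x
    exact mem_iUnion.2 ⟨i, (hx i).1 hi⟩
  have : ∀ p : ℕ × ℕ, Countable (S p.1 p.2) := fun p => (hSc p.1 p.2).to_subtype
  let Q := (Σ p : ℕ × ℕ, S p.1 p.2) ⊕ ℕ ⊕ ℕ
  let D : Q → Set (ℕ → K → K) := fun q => match q with
    | Sum.inl ⟨p, t⟩ => {s | ∀ y : XX p.1 p.2, InBox y → app s y ∈ t.1}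
    | Sum.inr (Sum.inl n) => {s | ∃ M, n ≤ M ∧ ∃ i, ∀ y : XX n M, InBox y → app s y ∈ V n M i}
    | Sum.inr (Sum.inr j0) =>
        {s | ∀ j ≤ j0, ∀ y y' : K, (∃ i < j0, y i ≠ y' i) → s j y ≠ s j y'}
  have : Nonempty Q := ⟨Sum.inr (Sum.inl 0)⟩
  obtain ⟨s, hs, h⟩ := fusion' D (by
    rintro (⟨p, t⟩ | n | j0)
    · exact req1 (hSo _ _ _ t.2) (hSd _ _ _ t.2)
    · exact req2 (hVo n) (hdU n)
    · exact req3 j0)
  refine ⟨s, hs, ?_, ?_⟩
  · intro j y y' hyy
    by_contra hne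
    obtain ⟨i, hi⟩ := Function.ne_iff.1 hne
    have := h (Sum.inr (Sum.inr (max j (i + 1))))
    exact this j (by omega) y y' ⟨i, by omega, hi⟩ hyy
  · intro n
    obtain ⟨M, hM, i, hi⟩ := h (Sum.inr (Sum.inl n))
    refine ⟨M, hM, i, fun y hy => ?_⟩
    have h1 : app s y ∈ ⋂₀ (S n M) := by
      intro t ht
      exact h (Sum.inl ⟨(n, M), ⟨t, ht⟩⟩) y hy
    exact (hSs n M h1 i).2 (hi y hy)

end Pool.Helper467GG
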